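import Pool.Agent.Helper15_PSC.Psc

/-!
# From `Con_T` to `Con_U` for theories `T` that prove `Con_U`
-/

namespace Helper31Con.Amp

open Function Filter Fm

variable {con θ : Fm} (I : IfaceS (RA con θ))

/-- The bound of the rule. -/
def bdT (C : ℕ) : Tm :=
  .add (.add (.add (powT (.add (.add (x 4) (x 1)) (nT C)) C) (x 3)) (nT 1)) (x 10)

/-- The rule. -/
lemma ev_psc (hcon : IsCon con) {Bs : List Fm} {C : ℕ}
    (h : ∀ (U : List Fm) (m : ℕ), Prov U m .bot →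
      Prov (I.A 11 (nT (lc U)) o o o :: Bs) ((m + lc U + C) ^ C) (neg (conS con U))) :
    Ev fun X => ∀ (t u L r n y w6 w7 w8 w9 d : Tm) (p q : ℕ),
      X.Ok t → X.Ok u → X.Ok L → X.Ok r → X.Ok n → X.Ok y → X.Ok w6 → X.Ok w7 → X.Ok w8 →
      X.Ok w9 → X.Ok d → X.E 1 (I.A 13 L t o o) → X.E 1 (I.A 14 L r o o) →
      X.E 1 (I.A 11 t o o o) → X.E 1 (I.A 11 u o o o) → X.E p (I.A 21 u w6 o o) →
      X.E 1 (Fm.eq w7 (ndT (nT 9) (ndT (nT 1) w6))) → X.E 1 (I.A 12 L w7 o o) →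
      X.E q (I.A 16 u w8 o o) → X.E 1 (I.A 5 (nT (fc (I.A 11 (x 0) o o o))) o w8 w9) →
      X.E 1 (I.A 12 L w9 o o) →
      X.E 1 (Fm.eq y (.add (.add (.add (powT (.add (.add n u) (nT C)) C) r) (nT 1)) d)) →
      X.E 1 (I.A 23 t y o o) → (∀ β ∈ Bs, X.E 1 (I.A 12 L (nT (fc β)) o o)) →
      X.E (p + q + 11 + Bs.length) (I.A 23 u n o o) := by
  have r := ev_rule I (.rl 13 (x 2) (x 0) o o :: .rl 14 (x 2) (x 3) o o ::
    .rl 11 (x 0) o o o :: .rl 11 (x 1) o o o :: .rl 21 (x 1) (x 6) o o ::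
    .eq (x 7) (ndT (nT 9) (ndT (nT 1) (x 6))) :: .rl 12 (x 2) (x 7) o o ::
    .rl 16 (x 1) (x 8) o o :: .rl 5 (nT (fc (I.A 11 (x 0) o o o))) o (x 8) (x 9) ::
    .rl 12 (x 2) (x 9) o o :: .eq (x 5) (bdT C) :: .rl 23 (x 0) (x 5) o o ::
    Bs.map fun β => At.rl 12 (x 2) (nT (fc β)) o o) (.rl 23 (x 1) (x 4) o o)
    (by
      intro α hα
      simp only [List.mem_cons, List.mem_map] at hα
      rcases hα with rfl | rfl | rfl | rfl | rfl | rfl | rfl | rfl | rfl | rfl | rfl | rfl | rfl |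
        ⟨β, _, rfl⟩ <;> simp [At.Wf, Al])
    (fun e => by
      rw [trL_iff]
      intro g
      have h1 : PfR (e 2) (e 0) := g (.rl 13 (x 2) (x 0) o o) (by simp)
      have h2 : PLR (e 2) (e 3) := g (.rl 14 (x 2) (x 3) o o) (by simp)
      have h3 : LSR (e 0) := g (.rl 11 (x 0) o o o) (by simp)
      have h4 : LSR (e 1) := g (.rl 11 (x 1) o o o) (by simp)
      have h5 : e 6 = fc (con.sub 0 (nT (e 1))) := g (.rl 21 (x 1) (x 6) o o) (by simp)
      have h6 : (x 7).val e = (ndT (nT 9) (ndT (nT 1) (x 6))).val e :=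
        g (.eq (x 7) (ndT (nT 9) (ndT (nT 1) (x 6)))) (by simp)
      have h7 : MeR (e 2) (e 7) := g (.rl 12 (x 2) (x 7) o o) (by simp)
      have h8 : e 8 = tc (nT (e 1)) := g (.rl 16 (x 1) (x 8) o o) (by simp)
      have h9 : SbF ((nT (fc (I.A 11 (x 0) o o o))).val e) 0 (e 8) (e 9) :=
        g (.rl 5 (nT (fc (I.A 11 (x 0) o o o))) o (x 8) (x 9)) (by simp)
      have h10 : MeR (e 2) (e 9) := g (.rl 12 (x 2) (x 9) o o) (by simp)
      have h11 : (x 5).val e = (bdT C).val e := g (.eq (x 5) (bdT C)) (by simp)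
      have h12 : cP con (e 0) (e 5) := g (.rl 23 (x 0) (x 5) o o) (by simp)
      have h13 : ∀ β ∈ Bs, MeR (e 2) (fc β) := fun β hβ => by
        have : MeR (e 2) ((nT (fc β)).val e) := g (.rl 12 (x 2) (nT (fc β)) o o) (by
          simp only [List.mem_cons, List.mem_map]
          iterate 12 right
          exact ⟨β, hβ, rfl⟩)
        rwa [Tm.val_num] at this
      rw [val_ndT, val_ndT, Tm.val_num, Tm.val_num] at h6
      have h6' : e 7 = nd 9 (nd 1 (fc (con.sub 0 (nT (e 1))))) := by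
        rw [← h5]; exact h6
      rw [Tm.val_num] at h9
      obtain ⟨φ, r', e1, e2, e3⟩ := h9
      obtain rfl := fc_inj e1
      obtain rfl := tc_inj (h8.symm.trans e2)
      have h9' : e 9 = fc (I.A 11 (nT (e 1)) o o o) := by
        rw [e3, Fm.sub_eq_sb, I.sbs _ _ _ _ _ _ (by simp [Al]) (by simp) (by simp) (by simp)]
        simp only [Tm.sb, update_self]
      have h11' : e 5 = (e 4 + e 1 + C) ^ C + e 3 + 1 + e 10 := by
        have h14 : e 5 = (bdT C).val e := h11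
        rw [h14]
        simp only [bdT, Tm.val, val_powT, Tm.val_num]
      exact sem_psc I hcon h h1 h2 h3 h4 (h6' ▸ h7) (h9' ▸ h10) h13 h11' h12)
  refine r.mono ?_
  intro X r t u L rr n y w6 w7 w8 w9 d p q ht hu hL hr hn hy h6 h7 h8 h9 hd
    q1 q2 q3 q4 q5 q6 q7 q8 q9 q10 q11 q12 q13
  have key := r (tl [t, u, L, rr, n, y, w6, w7, w8, w9, d])
    (1 :: 1 :: 1 :: 1 :: p :: 1 :: 1 :: q :: 1 :: 1 :: 1 :: 1 :: List.replicate Bs.length 1)
    (Cx.ok11 ht hu hL hr hn hy h6 h7 h8 h9 hd)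
    (.cons q1 (.cons q2 (.cons q3 (.cons q4 (.cons q5 (.cons (by
      show X.E 1 (Fm.eq w7 ((ndT (nT 9) (ndT (nT 1) (x 6))).sb _))
      rw [sb_ndT, sb_ndT, Tm.sb_num, Tm.sb_num]
      exact q6) (.cons q7 (.cons q8 (.cons (by
      show X.E 1 (I.A 5 ((nT (fc (I.A 11 (x 0) o o o))).sb _) o w8 w9)
      rw [Tm.sb_num]
      exact q9) (.cons q10 (.cons (by
      show X.E 1 (Fm.eq y ((bdT C).sb _))
      simp only [bdT, Tm.sb, sb_powT, Tm.sb_num]
      exact q11) (.cons q12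
      (forall2_rep (P := fun nn α => X.E nn (At.fm I (At.sb α
          (tl [t, u, L, rr, n, y, w6, w7, w8, w9, d]))))
        (g := fun β => At.rl 12 (x 2) (nT (fc β)) o o) (fun β hβ => by
        show X.E 1 (I.A 12 L ((nT (fc β)).sb _) o o)
        rw [Tm.sb_num]
        exact q13 β hβ))))))))))))))
  refine key.mono (le_of_eq ?_)
  simp only [List.sum_cons, List.sum_replicate, smul_eq_mul]
  ring

/-- If `T` proves `Con_U` (and a fixed finite set `B₁` of true sentences), then short proofs of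
`Con_T(n)` give short proofs of `Con_U(n)`. -/
theorem psc {con : Fm} (hcon : IsCon con) : ∃ B₁ : List Fm, (∀ φ ∈ B₁, TrueS φ) ∧
    ∀ T U : List Fm, (∀ φ ∈ T, Fm.Sentence φ) → (∀ φ ∈ U, Fm.Sentence φ) →
      (∀ φ ∈ B₁, ∃ k, Prov T k φ) → (∃ k, Prov T k (conS con U)) → ∃ c d, ∀ A : List Fm,
      (∀ φ ∈ B₁, φ ∈ A) → ∀ n k, Prov A k (conN con T ((n + c) ^ c)) →
        Prov A ((n + k + d) ^ d) (conN con U n) := by
  obtain ⟨I⟩ := exists_ifaceA (θ := Fm.bot) hcon (fun k hk => absurd hk (by simp [Fm.Free]))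
  obtain ⟨Bs, hBs, C, hC⟩ := psc_core I hcon
  obtain ⟨f, hf⟩ := ev_dec I
  obtain ⟨g, hg⟩ := ev_c0 I
  obtain ⟨h, hhP, hh⟩ := eq_fact (x 0) (.add (.add (.add (powT (.add (.add (x 1) (x 2)) (nT C)) C)
    (x 3)) (nT 1)) (x 4))
  obtain ⟨c1, h1⟩ := horn1 (α := con) (β := I.A 23 (x 0) (x 1) o o) (fun e h1 => by
    rw [I.sat _ _ _ _ _ _ (by simp [Al]) (by simp [Al]) (by simp) (by simp)]
    exact (hcon.cP_iff e).mp h1)
  obtain ⟨c2, h2⟩ := horn1 (α := I.A 23 (x 0) (x 1) o o) (β := con) (fun e h1 => by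
    rw [I.sat _ _ _ _ _ _ (by simp [Al]) (by simp [Al]) (by simp) (by simp)] at h1
    exact (hcon.cP_iff e).mpr h1)
  obtain ⟨B₀, hB₀, c₀, hX⟩ := ((hf.and (ev_nmc I)).and ((hg.and (ev_psc I hcon hC)).and
    ev_n2)).and (((ev_pr PB.id).and (ev_pr hhP)).and ((ev_rich hh).and
      ((ev_rich h1).and (ev_rich h2))))
  refine ⟨Bs ++ B₀, ?_, ?_⟩
  · intro φ hφ
    rcases List.mem_append.mp hφ with h | h
    · exact hBs φ h
    · exact hB₀ φ h
  intro T U hT hU hTB hTU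
  -- `T` proves that `U` is a list of sentences
  have h11 : ∃ k, Prov T k (I.A 11 (nT (lc U)) o o o) := by
    obtain ⟨X, e1, e2, e3, e4, e5⟩ := exists_cx B₀ c₀ (f (lc U) + 1) (by omega)
    obtain ⟨⟨⟨hf, _⟩, _⟩, _⟩ := hX X (by rw [e1]; exact fun β hβ => hβ) (by rw [e3])
      (by rw [e4, e5])
    have q := hf 11 (by omega) (lc U) 0 0 0 (lc U) le_rfl (by omega) (by omega) (by omega)
      (by rw [e4]; omega) ⟨U, rfl, hU⟩
    have q' : Pr X.B (X.C * 1) X.C (impL X.G (I.A 11 (nT (lc U)) o o o)) := q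
    rw [e1, e2] at q'
    have q'' : Pr B₀ (X.C * 1) X.C (I.A 11 (nT (lc U)) o o o) := q'
    exact prov_cut (fun β hβ => hTB β (List.mem_append_right _ hβ)) q''.prov
  obtain ⟨L, hL, hLm⟩ := exists_list (T := T) (Ps := conS con U ::
    I.A 11 (nT (lc U)) o o o :: Bs) (by
      intro φ hφ
      rcases List.mem_cons.mp hφ with rfl | hφ
      · exact hTU
      rcases List.mem_cons.mp hφ with rfl | hφ
      · exact h11
      · exact hTB φ (List.mem_append_left _ hφ))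
  set t := lc T with ht
  set u := lc U with hu
  set r := plen L with hr
  set w6 := fc (con.sub 0 (nT u)) with hw6
  set w7 := nd 9 (nd 1 w6) with hw7
  set w8 := tc (nT u) with hw8
  set w9 := fc (I.A 11 (nT u) o o o) with hw9
  set c11 := fc (I.A 11 (x 0) o o o) with hc11
  set N₁ := t + u + lc L + r + w6 + w7 + w8 + w9 + c11 + fc con + 1 with hN₁
  set ca := u + C + r + 2 with hca
  set Sf : ℕ → ℕ := fun v => ((v + ca) ^ ca + v + N₁ + 1 + f N₁ + g N₁) +
    (c1 + v + c1 * ((v + ca) ^ ca + N₁ + v + 1) + con.len * ((v + ca) ^ ca + N₁ + v + 1)) with hSf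
  set Cf : ℕ → ℕ := fun v => (Sf v + c₀) ^ c₀ with hCf
  set cost := 2 * (u + 1) + 2 + 2 * (u + 1) + 11 + Bs.length with hcost
  set H : ℕ → ℕ := fun v => (c2 + Cf v * cost) * (Cf v + c2 * (v + N₁ + 1)) with hH
  have hYP : PB fun v => (v + ca) ^ ca := PB.pow (PB.id.add (PB.const _)) ca
  have hYP' : PB fun v => (v + ca) ^ ca + N₁ + v + 1 :=
    ((hYP.add (PB.const _)).add PB.id).add (PB.const 1)
  have hSP : PB Sf := (((((hYP.add PB.id).add (PB.const _)).add (PB.const 1)).add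
    (PB.const _)).add (PB.const _)).add ((((PB.const _).add PB.id).add
      ((PB.const _).mul hYP')).add ((PB.const _).mul hYP'))
  have hCP : PB Cf := PB.pow (hSP.add (PB.const _)) c₀
  have hHP : PB H := ((PB.const _).add (hCP.mul (PB.const _))).mul (hCP.add ((PB.const _).mul
    ((PB.id.add (PB.const _)).add (PB.const 1))))
  obtain ⟨C₁, q, hCq⟩ := hHP
  refine ⟨ca, C₁ + q + 2, fun A hA n k hp => ?_⟩
  obtain ⟨v, hv⟩ : ∃ v, v = n + k := ⟨_, rfl⟩
  obtain ⟨y, hy⟩ : ∃ y, y = (n + ca) ^ ca := ⟨_, rfl⟩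
  rw [← hy] at hp
  have hyv : y ≤ (v + ca) ^ ca := by rw [hy]; exact Nat.pow_le_pow_left (by omega) _
  -- the slack
  have hyb : (n + u + C) ^ C + r + 1 ≤ y := by
    rw [hy]
    have a1 : (n + u + C) ^ C ≤ (n + ca) ^ C := Nat.pow_le_pow_left (by omega) _
    have a2 : (n + ca) ^ (C + 1) ≤ (n + ca) ^ ca := Nat.pow_le_pow_right (by omega) (by omega)
    have a3 : 1 ≤ (n + ca) ^ C := Nat.one_le_pow _ _ (by omega)
    rw [pow_succ] at a2
    have a4 : (n + ca) ^ C * (r + 2) ≤ (n + ca) ^ C * (n + ca) := Nat.mul_le_mul_left _ (by omega)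
    have a5 : (n + ca) ^ C + r + 1 ≤ (n + ca) ^ C * (r + 2) := by nlinarith
    omega
  obtain ⟨d, hd⟩ := Nat.exists_eq_add_of_le hyb
  obtain ⟨X, e1, e2, e3, e4, e5⟩ := exists_cx A c₀ (Sf v) (by
    show 1 ≤ ((v + ca) ^ ca + v + N₁ + 1 + f N₁ + g N₁) + _; omega)
  obtain ⟨⟨⟨hf, hnmc⟩, ⟨⟨hg, hpsc⟩, hn2⟩⟩, ⟨⟨hpr, hprh⟩, ⟨hh, ⟨h1, h2⟩⟩⟩⟩ := hX X
    (by rw [e1]; exact fun β hβ => hA β (List.mem_append_right _ hβ)) (by rw [e3]) (by rw [e4, e5])
  have hSu : X.S = ((v + ca) ^ ca + v + N₁ + 1 + f N₁ + g N₁) +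
    (c1 + v + c1 * ((v + ca) ^ ca + N₁ + v + 1) + con.len * ((v + ca) ^ ca + N₁ + v + 1)) := e4
  have okn : ∀ a, a ≤ N₁ + (v + ca) ^ ca + v → X.Ok (nT a) := fun a ha =>
    X.ok_num (by rw [hSu]; omega)
  have hfS : f N₁ ≤ X.S := by omega
  have hgS : g N₁ ≤ X.S := by omega
  have m7 : conS con U ∈ L := hLm _ (by simp)
  have m9 : I.A 11 (nT u) o o o ∈ L := hLm _ (by simp)
  have p1 := hf 13 (by omega) (lc L) t 0 0 N₁ (by omega) (by omega) (by omega) (by omega)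
    hfS ⟨L, T, rfl, rfl, hL⟩
  have p2 := hf 14 (by omega) (lc L) r 0 0 N₁ (by omega) (by omega) (by omega) (by omega)
    hfS ⟨L, rfl, rfl⟩
  have p3 := hf 11 (by omega) t 0 0 0 N₁ (by omega) (by omega) (by omega) (by omega)
    hfS ⟨T, rfl, hT⟩
  have p4 := hf 11 (by omega) u 0 0 0 N₁ (by omega) (by omega) (by omega) (by omega)
    hfS ⟨U, rfl, hU⟩
  have p5 := hg u N₁ (by omega) (by omega) (by omega) (by omega) (by omega) hgS
  have p6 : X.E 1 (Fm.eq (nT w7) (ndT (nT 9) (ndT (nT 1) (nT w6)))) := hn2 9 1 w6 (by omega)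
  have p7 := hf 12 (by omega) (lc L) w7 0 0 N₁ (by omega) (by omega) (by omega) (by omega)
    hfS ⟨L, conS con U, rfl, rfl, m7⟩
  have p8 := hnmc u (by omega) (by omega)
  have p9 := hf 5 (by omega) c11 0 w8 w9 N₁ (by omega) (by omega) (by omega) (by omega)
    hfS ⟨I.A 11 (x 0) o o o, nT u, rfl, rfl, by
      rw [hw9, Fm.sub_eq_sb, I.sbs _ _ _ _ _ _ (by simp [Al]) (by simp) (by simp) (by simp)]
      simp only [Tm.sb, update_self]⟩
  have p10 := hf 12 (by omega) (lc L) w9 0 0 N₁ (by omega) (by omega) (by omega) (by omega)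
    hfS ⟨L, _, rfl, rfl, m9⟩
  have p11 : X.E 1 (Fm.eq (nT y) (.add (.add (.add (powT (.add (.add (nT n) (nT u)) (nT C)) C)
      (nT r)) (nT 1)) (nT d))) := by
    have := hprh _ (hh (as [y, n, u, r, d]) X.S (as_le (by
      simp only [List.forall_mem_cons, List.not_mem_nil, IsEmpty.forall_iff, implies_true,
        and_true]
      omega)) (by
        simp only [Tm.val, val_powT, Tm.val_num]
        show y = (n + u + C) ^ C + r + 1 + d
        omega))
    have h3 : Fm.cl (as [y, n, u, r, d]) (Fm.eq (x 0) (.add (.add (.add (powT (.add (.add (x 1)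
        (x 2)) (nT C)) C) (x 3)) (nT 1)) (x 4))) = Fm.eq (nT y) (.add (.add (.add (powT
        (.add (.add (nT n) (nT u)) (nT C)) C) (nT r)) (nT 1)) (nT d)) := by
      simp only [Fm.cl, Fm.sb, Tm.sb, sb_powT, Tm.sb_num]; rfl
    rwa [h3] at this
  have p12 : X.E 1 (I.A 23 (nT t) (nT y) o o) := hpr _ (by
    have a1 : (conN con T y).len ≤ con.len * ((v + ca) ^ ca + N₁ + v + 1) := by
      rw [hcon.conN_eq]
      exact Fm.len_cl (as_le (by
        simp only [List.forall_mem_cons, List.not_mem_nil, IsEmpty.forall_iff, implies_true,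
          and_true]
        omega))
    rw [hcon.conN_eq] at hp
    have a2 := h1 (as [lc T, y]) ((v + ca) ^ ca + N₁ + v) X.S k (as_le (by
      simp only [List.forall_mem_cons, List.not_mem_nil, IsEmpty.forall_iff, implies_true,
        and_true]
      omega)) (by omega) (by
        rw [e1]
        exact hp.pr.mono le_rfl (by omega))
    rw [I.cl _ _ _ _ _ _ (by simp [Al]) (by simp [Al]) (by simp) (by simp)] at a2
    exact a2.mono (by show c1 + k ≤ X.S; omega) (by show X.S ≤ X.S; omega))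
  have p13 : ∀ β ∈ Bs, X.E 1 (I.A 12 (nT (lc L)) (nT (fc β)) o o) := by
    intro β hβ
    have a1 : β ∈ L := hLm _ (by simp [hβ])
    have a2 := mem_le_lc a1
    exact hf 12 (by omega) (lc L) (fc β) 0 0 N₁ (by omega) (by omega) (by omega) (by omega)
      hfS ⟨L, β, rfl, rfl, a1⟩
  have p14 := hpsc (nT t) (nT u) (nT (lc L)) (nT r) (nT n) (nT y) (nT w6) (nT w7) (nT w8) (nT w9)
    (nT d) _ _ (okn _ (by omega)) (okn _ (by omega)) (okn _ (by omega)) (okn _ (by omega))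
    (okn _ (by omega)) (okn _ (by omega)) (okn _ (by omega)) (okn _ (by omega))
    (okn _ (by omega)) (okn _ (by omega)) (okn _ (by omega)) p1 p2 p3 p4 p5 p6 p7 p8 p9 p10 p11
    p12 p13
  have p15 : Pr A (X.C * cost) X.C (I.A 23 (nT u) (nT n) o o) := by
    have : Pr X.B _ X.C (impL X.G (I.A 23 (nT u) (nT n) o o)) := p14
    rw [e1, e2] at this
    exact this.mono (Nat.mul_le_mul_left _ (by omega)) le_rfl
  rw [e1] at h2
  have hXC : X.C = Cf v := e5
  have p16 := h2 (as [u, n]) (v + N₁) (Cf v + c2 * (v + N₁ + 1)) _ (as_le (by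
    simp only [List.forall_mem_cons, List.not_mem_nil, IsEmpty.forall_iff, implies_true,
      and_true]
    omega)) (by omega) (by
    rw [I.cl _ _ _ _ _ _ (by simp [Al]) (by simp [Al]) (by simp) (by simp)]
    exact p15.mono le_rfl (by omega))
  have p17 := p16.prov
  rw [hXC] at p17
  have p18 : con.cl (as [u, n]) = conN con U n := (hcon.conN_eq U n).symm
  rw [p18] at p17
  refine p17.mono ?_
  have q13 : (c2 + Cf v * cost) * (Cf v + c2 * (v + N₁ + 1)) ≤ C₁ * (v + 2) ^ q := hCq v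
  refine q13.trans ?_
  rw [← hv]
  calc C₁ * (v + 2) ^ q ≤ (v + (C₁ + q + 2)) * (v + (C₁ + q + 2)) ^ q :=
        Nat.mul_le_mul (by omega) (Nat.pow_le_pow_left (by omega) _)
    _ = (v + (C₁ + q + 2)) ^ (q + 1) := by rw [pow_succ]; ring
    _ ≤ (v + (C₁ + q + 2)) ^ (C₁ + q + 2) := Nat.pow_le_pow_right (by omega) (by omega)

end Helper31Con.Amp
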