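import Pool.Agent.Helper31_Amp.Final

/-!
# Polynomial completeness for existential statements about refutations

If `U` has a refutation with `m` symbols, then a fixed finite true theory refutes `Con_U` with a
number of symbols polynomial in `m` and the number of `U`.
-/

namespace Helper31Con.Amp

open Function Filter Fm

variable {con θ : Fm} (I : IfaceS (RA con θ))

lemma prr_head {a y v : ℕ} (h : a = nd y v) : PRr a y := by
  intro l φ h1 h2
  cases l with
  | nil =>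
    have := nd_pos y v
    have h3 : a = 0 := h1
    omega
  | cons φ' l' =>
    have h3 : a = nd (fc φ') (lc l') := h1
    rw [h] at h3
    obtain ⟨h4, _⟩ := nd_inj.mp h3
    obtain rfl := fc_inj (h2.symm.trans h4)
    exact ⟨plen [φ], [], ⟨trivial, Or.inl List.mem_cons_self⟩, le_rfl⟩

lemma prr_tail {a y v z : ℕ} (h : a = nd y v) (h1 : PRr v z) : PRr a z := by
  intro l φ h2 h3
  cases l with
  | nil =>
    have := nd_pos y v
    have h4 : a = 0 := h2
    omega
  | cons φ' l' =>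
    have h4 : a = nd (fc φ') (lc l') := h2
    rw [h] at h4
    obtain ⟨_, h5⟩ := nd_inj.mp h4
    obtain ⟨k, L, h6, h7⟩ := h1 l' φ h5 h3
    exact ⟨k, L, h6.mono fun χ hχ => List.mem_cons_of_mem _ hχ, h7⟩

/-- Members of a list are provable from it, at cost linear in the length. -/
lemma ev_pm : Ev fun X => ∀ (A : List Fm) (ψ : Fm), ψ ∈ A → lc A + 1 ≤ X.S →
    X.E (2 * A.length) (I.A 17 (nT (lc A)) (nT (fc ψ)) o o) := by
  have r1 := ev_rule I [.eq (x 0) (ndT (x 1) (x 2))] (.rl 17 (x 0) (x 1) o o)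
    (by simp [At.Wf, Al]) (fun e h => by
      have h' : (x 0).val e = (ndT (x 1) (x 2)).val e := h
      rw [val_ndT] at h'
      exact prr_head (v := e 2) h')
  have r2 := ev_rule I [.eq (x 0) (ndT (x 1) (x 2)), .rl 17 (x 2) (x 3) o o]
    (.rl 17 (x 0) (x 3) o o) (by simp [At.Wf, Al]) (fun e h h1 => by
      have h' : (x 0).val e = (ndT (x 1) (x 2)).val e := h
      rw [val_ndT] at h'
      exact prr_tail (y := e 1) (v := e 2) h' h1)
  refine ((r1.and r2).and ev_n1).mono ?_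
  rintro X ⟨⟨r1, r2⟩, hn⟩ A
  induction A with
  | nil => intro ψ h; simp at h
  | cons φ A ih =>
    intro ψ hψ hS
    have h0 : lc (φ :: A) = nd (fc φ) (lc A) := rfl
    rw [h0] at hS ⊢
    have h1 := lt_nd_l (fc φ) (lc A)
    have h2 := lt_nd_r (fc φ) (lc A)
    have h3 := hn (fc φ) (lc A) hS
    have ok1 : X.Ok (nT (nd (fc φ) (lc A))) := X.ok_num hS
    have ok2 : X.Ok (nT (fc φ)) := X.ok_num (by omega)
    have ok3 : X.Ok (nT (lc A)) := X.ok_num (by omega)
    rcases List.mem_cons.mp hψ with rfl | hψ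
    · exact (r1 (tl [nT (nd (fc ψ) (lc A)), nT (fc ψ), nT (lc A)]) [1] (Cx.ok3 ok1 ok2 ok3)
        (.cons h3 .nil)).mono (by simp [List.length_cons])
    · have h4 := mem_le_lc hψ
      exact (r2 (tl [nT (nd (fc φ) (lc A)), nT (fc φ), nT (lc A), nT (fc ψ)]) [1, _]
        (Cx.ok4 ok1 ok2 ok3 (X.ok_num (by omega)))
        (.cons h3 (.cons (ih ψ hψ (by omega)) .nil))).mono (by simp [List.length_cons]; omega)

/-- Rewriting of the second argument. -/
lemma ev_pre : Ev fun X => ∀ (a y z : Tm) (n m : ℕ), X.Ok a → X.Ok y → X.Ok z →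
    X.E n (I.A 17 a y o o) → X.E m (Fm.eq z y) → X.E (n + m + 1) (I.A 17 a z o o) := by
  have r := ev_rule I [.rl 17 (x 0) (x 1) o o, .eq (x 2) (x 1)] (.rl 17 (x 0) (x 2) o o)
    (by simp [At.Wf, Al]) (fun e h1 h2 => by
      have h1' : PRr (e 0) (e 1) := h1
      have h2' : e 2 = e 1 := h2
      show PRr (e 0) (e 2)
      rw [h2']; exact h1')
  refine r.mono ?_
  intro X r a y z n m ha hy hz h1 h2
  exact (r (tl [a, y, z]) [n, m] (Cx.ok3 ha hy hz) (.cons h1 (.cons h2 .nil))).mono (by simp)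

/-- A refuted theory is not consistent. -/
lemma ev_bad (hcon : IsCon con) : Ev fun X => ∀ (a y : Tm) (n m p q : ℕ), X.Ok a → X.Ok y →
    X.E n (I.A 17 a y o o) → X.E m (Fm.eq y (ndT (nT 5) o)) → X.E p (I.A 11 a o o o) →
    X.E q (I.A 22 a o o o) → X.E (n + m + p + q + 1) (neg (Fm.eq o o)) := by
  have r := ev_rule I [.rl 17 (x 0) (x 1) o o, .n1 (x 1) 5 o, .rl 11 (x 0) o o o,
    .rl 22 (x 0) o o o] (.ne o o) (by simp [At.Wf, Al]) (fun e h1 h2 h3 h4 => by
      have h1' : PRr (e 0) (e 1) := h1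
      have h2' : e 1 = nd 5 0 := h2
      obtain ⟨l, h5, hl⟩ : LSR (e 0) := h3
      have h4' : ∀ n, cP con (e 0) n := h4
      obtain ⟨k, hk⟩ := h1' l .bot h5 h2'
      exact absurd hk ((cP_lc hcon hl k).mp (h5 ▸ h4' k)))
  refine r.mono ?_
  intro X r a y n m p q ha hy h1 h2 h3 h4
  exact (r (tl [a, y]) [n, m, p, q] (Cx.ok2 ha hy)
    (.cons h1 (.cons h2 (.cons h3 (.cons h4 .nil))))).mono (by simp; omega)

/-- The consistency axiom gives the fact, with a bound. -/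
lemma cc_fact' (hcon : IsCon con) : ∃ c, ∀ᶠ B in rich, ∀ A, conS con A ∈ B → ∀ M,
    (conS con A).len + c * (lc A + 1) ≤ M → Pr B (c + 1) M (I.A 22 (nT (lc A)) o o o) := by
  obtain ⟨c, h⟩ := horn1 (α := all 1 con) (β := I.A 22 (x 0) o o o) (fun e h1 => by
    rw [I.sat _ _ _ _ _ _ (by simp [Al]) (by simp) (by simp) (by simp)]
    intro n
    have := h1 n
    rw [hcon.cP_iff, update_self, update_of_ne (by omega)] at this
    exact this)
  refine ⟨c, ?_⟩
  filter_upwards [h] with B h A hA M hM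
  set e := as [lc A] with he
  have h1 := h e (lc A) M 1 (as_le (by simp)) (by omega) (by
    rw [← hcon.conS_eq A e rfl]
    exact Pr.mem hA (by omega))
  rwa [I.cl _ _ _ _ _ _ (by simp [Al]) (by simp) (by simp) (by simp)] at h1

lemma length_le_lc (U : List Fm) : U.length ≤ lc U := by
  induction U with
  | nil => simp
  | cons φ U ih =>
    have h : lc (φ :: U) = nd (fc φ) (lc U) := rfl
    have := lt_nd_r (fc φ) (lc U)
    rw [h, List.length_cons]; omega

open Classical in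
/-- Polynomial completeness, line version. -/
lemma psc_pr (hcon : IsCon con) :
    ∃ B₀ : List Fm, (∀ β ∈ B₀, TrueS β) ∧ ∃ F : ℕ → ℕ, PB F ∧ Monotone F ∧ ∀ (B U : List Fm) (m : ℕ),
      (∀ β ∈ B₀, β ∈ B) → conS con U ∈ B → I.A 11 (nT (lc U)) o o o ∈ B → Prov U m .bot →
      Pr B (F (m + lc U + (conS con U).len + (I.A 11 (nT (lc U)) o o o).len))
        (F (m + lc U + (conS con U).len + (I.A 11 (nT (lc U)) o o o).len)) .bot := by
  obtain ⟨c1, hcc⟩ := cc_fact' I hcon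
  obtain ⟨B₀, hB₀, c₀, hX⟩ := (((ev_proof I).and ev_hyp).and ((ev_codeF I).and (ev_pm I))).and
    (((ev_pre I).and (ev_bad I hcon)).and ((ev_pr (PB.id.add (PB.const (c1 + 1)))).and
      (ev_rich hcc)))
  -- the functions
  set K : ℕ → ℕ := fun u => u + 3 with hK
  set Sf : ℕ → ℕ := fun u => 12 * (c₀ + 2 * K u) + 100 + (u + c1 * (u + 1) + 1) with hSf
  set Cf : ℕ → ℕ := fun u => (Sf u + c₀) ^ c₀ with hCf
  set Nf : ℕ → ℕ := fun u => u * (cst u + (2 * u + 4 * K u + 1)) + 1 + 1 + 1 + 1 with hNf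
  have hKP : PB K := PB.id.add (PB.const _)
  have hSP : PB Sf := (((PB.const 12).mul ((PB.const _).add ((PB.const 2).mul hKP))).add
    (PB.const 100)).add ((PB.id.add ((PB.const _).mul (PB.id.add (PB.const 1)))).add (PB.const 1))
  have hCP : PB Cf := PB.pow (hSP.add (PB.const _)) c₀
  have hcP : PB cst := ((PB.const 20).mul (PB.id.add (PB.const 1))).mul (PB.id.add (PB.const 1))
  have hNP : PB Nf := ((((PB.id.mul (hcP.add ((((PB.const 2).mul PB.id).add
    ((PB.const 4).mul hKP)).add (PB.const 1)))).add (PB.const 1)).add (PB.const 1)).add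
    (PB.const 1)).add (PB.const 1)
  obtain ⟨F, hF, hFm, hFle⟩ := PB.exists_mono (f := fun u => Cf u * Nf u + 5 * K u + 4 * Cf u + 5
    + 4) (((((hCP.mul hNP).add ((PB.const 5).mul hKP)).add ((PB.const 4).mul hCP)).add
    (PB.const 5)).add (PB.const 4))
  refine ⟨B₀, hB₀, F, hF, hFm, fun B U m hB hcU h11 hp => ?_⟩
  obtain ⟨L, hL, hlen⟩ := hp
  obtain ⟨u, hu⟩ : ∃ u, u = m + lc U + (conS con U).len + (I.A 11 (nT (lc U)) o o o).len :=
    ⟨_, rfl⟩
  rw [← hu]
  have hKu : K u = u + 3 := rfl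
  have hSu : Sf u = 12 * (c₀ + 2 * K u) + 100 + (u + c1 * (u + 1) + 1) := rfl
  set D := (pre (Fm.bot :: L) [Tm.zero]).dedup with hDdef
  have hD : Cl D := cl_dedup (cl_pre _ _)
  have hnd : D.Nodup := List.nodup_dedup _
  have htot : plen (Fm.bot :: L) + tlen [Tm.zero] ≤ K u := by
    have h1 : tlen [Tm.zero] = 1 := by simp [tlen, Tm.len]
    rw [h1, hKu]
    omega
  have hDlen : D.length ≤ K u :=
    ((List.dedup_sublist _).length_le.trans (length_pre _ _)).trans htot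
  have hexl : ∀ e ∈ D, exl e ≤ K u := fun e he => (exl_pre (List.mem_dedup.mp he)).trans htot
  set v : Ex → ℕ := fun e => c₀ + pos D e with hv
  have hvinj : ∀ e ∈ D, ∀ e' ∈ D, v e = v e' → e = e' := by
    intro e he e' _ h
    refine pos_inj he ?_
    have h2 : c₀ + pos D e = c₀ + pos D e' := h
    omega
  have hvlt : ∀ e ∈ D, v e + 1 ≤ c₀ + K u := by
    intro e he
    have := pos_lt he
    show c₀ + pos D e + 1 ≤ _
    omega
  have hG : (dfs (defs v D)).length = D.length := by simp [dfs, defs]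
  have hmemG : ∀ γ ∈ dfs (defs v D), ∃ e ∈ D, γ = Fm.eq (.var (v e)) (dft v e) := by
    intro γ hγ
    obtain ⟨p, hp, rfl⟩ := List.mem_map.mp hγ
    obtain ⟨e, he, rfl⟩ := List.mem_map.mp hp
    exact ⟨e, he, rfl⟩
  have hlG : ∀ γ ∈ dfs (defs v D), γ.len ≤ Sf u := by
    intro γ hγ
    obtain ⟨e, he, rfl⟩ := hmemG γ hγ
    have h1 := hvlt e he
    have h2 := len_dft (v := v) (e := e) (K := c₀ + K u)
      (fun c hc => hvlt c (cl_mem hD he hc)) ((hexl e he).trans (by omega))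
    simp only [Fm.len, Tm.len]
    omega
  -- the context
  obtain ⟨X, hXB, hXG, hXW, hXS, hXC⟩ : ∃ X : Cx, X.B = B ∧ X.G = dfs (defs v D) ∧ X.W = c₀ ∧
      X.S = Sf u ∧ X.C = Cf u :=
    ⟨⟨B, dfs (defs v D), c₀, Sf u, Cf u, by omega, by omega, hlG⟩, rfl, rfl, rfl, rfl, rfl⟩
  obtain ⟨⟨⟨hprf, hhyp⟩, ⟨hcode, hpm⟩⟩, ⟨⟨hpre, hbad⟩, ⟨hpr, hcc⟩⟩⟩ :=
    hX X (by rw [hXB]; exact hB) (by rw [hXW]) (by rw [hXS, hXC])
  have okn : ∀ n, n ≤ u → X.Ok (nT n) := fun n hn => X.ok_num (by rw [hXS]; omega)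
  set V : Nm X := mkNm X v D hD hexl (by rw [hXS]; omega)
    (fun e he => ⟨by rw [hXW]; exact Nat.le_add_right _ _, by
      have := hvlt e he
      rw [hXS]; omega⟩)
    (fun e he => hhyp _ (by
      rw [hXG]
      exact List.mem_map_of_mem (f := fun p : ℕ × Tm => Fm.eq (.var p.1) p.2)
        (List.mem_map_of_mem (f := fun e => (v e, dft v e)) he))) with hV
  have hVF : ∀ φ, V.F φ ↔ Sum.inr φ ∈ D := fun φ => Iff.rfl
  have hVT : ∀ t, V.T t ↔ Sum.inl t ∈ D := fun φ => Iff.rfl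
  have hFL : ∀ ψ ∈ Fm.bot :: L, V.F ψ := fun ψ hψ => by
    rw [hVF, hDdef, List.mem_dedup]
    exact mem_pre_f hψ
  have hTz : V.T .zero := by
    rw [hVT, hDdef, List.mem_dedup]
    exact mem_pre_t (by simp)
  -- the members of `U`
  have hAm : ∀ ψ ∈ U, V.F ψ → X.E (2 * u + 4 * K u + 1) (I.A 17 (nT (lc U)) (V.f ψ) o o) := by
    intro ψ hψ hF
    have h1 := mem_le_lc hψ
    have h2 := hexl _ hF
    have h3 := hpm U ψ hψ (by rw [hXS]; omega)
    have h4 := hcode V ψ hF (by rw [hXS]; omega)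
    have h5 : U.length ≤ lc U := length_le_lc U
    refine (hpre _ _ _ _ _ (okn _ (by omega)) (okn _ (by omega)) (V.okf ψ hF) h3 h4).mono ?_
    simp only [exl] at h2
    omega
  have hprL := hprf V (nT (lc U)) U (Fm.bot :: L) u (2 * u + 4 * K u + 1) (okn _ (by omega)) hTz hL
    (fun ψ hψ => ⟨hFL ψ hψ, (len_le_plen hψ).trans (by omega)⟩) hAm
  have hprκ : X.E (u * (cst u + (2 * u + 4 * K u + 1))) (I.A 17 (nT (lc U)) (V.f .bot) o o) := by
    refine Pr.mono (hprL.pr (List.mem_map_of_mem List.mem_cons_self)) ?_ le_rfl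
    have h1 : (Fm.bot :: L).length ≤ u := (length_le_plen _).trans (by omega)
    calc (Fm.bot :: L).length * (X.C * (cst u + (2 * u + 4 * K u + 1)))
        ≤ u * (X.C * (cst u + (2 * u + 4 * K u + 1))) := Nat.mul_le_mul_right _ h1
      _ = X.C * (u * (cst u + (2 * u + 4 * K u + 1))) := by ring
  have h2 : X.E 1 (Fm.eq (V.f .bot) (ndT (nT 5) o)) := V.bot (hFL _ List.mem_cons_self)
  have h3 : X.E 1 (I.A 11 (nT (lc U)) o o o) := hpr _ (by
    rw [hXB]
    exact (Pr.mem h11 (M := X.S + (c1 + 1)) (by rw [hXS]; omega)).mono (by omega) le_rfl)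
  have h4 : X.E 1 (I.A 22 (nT (lc U)) o o o) := hpr _ (by
    have := hcc U (by rw [hXB]; exact hcU) (X.S + (c1 + 1)) (by
      rw [hXS]
      have h5 : c1 * (lc U + 1) ≤ c1 * (u + 1) := by gcongr; omega
      omega)
    exact this.mono (by omega) le_rfl)
  have key := hbad (nT (lc U)) (V.f .bot) _ _ _ _ (okn _ (by omega))
    (V.okf _ (hFL _ List.mem_cons_self)) hprκ h2 h3 h4
  have key2 : Pr X.B (X.C * Nf u) X.C (impL X.G (neg (Fm.eq o o))) := by
    refine Pr.mono key (Nat.mul_le_mul_left _ ?_) le_rfl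
    have hNu : Nf u = u * (cst u + (2 * u + 4 * K u + 1)) + 1 + 1 + 1 + 1 := rfl
    rw [hNu]
  -- elimination of the names
  have hlen2 := key2.len_le
  rw [hXB, hXC, hXG] at key2
  rw [hXC, hXG] at hlen2
  have key3 := Pr.elimL (M := 4 * Cf u + 5) (defs v D) _ (adm_defs hD hnd hvinj) (fun p _ hf => by
    rcases hf with (h | h) | h
    · exact h
    · exact h
    · exact h) (by omega) (key2.mono le_rfl (by omega))
  have hdl : (defs v D).length = D.length := by simp [defs]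
  have hFu : Cf u * Nf u + 5 * K u + 4 * Cf u + 5 + 4 ≤ F u := hFle u
  refine (Pr.mp (M := 4 * Cf u + 5) key3 (Pr.eqRefl (by simp only [Tm.len]; omega))).mono ?_ ?_
  · omega
  · omega

lemma fact11_eq (a : ℕ) : I.A 11 (nT a) o o o = (I.A 11 (x 0) o o o).cl (as [a]) := by
  rw [I.cl _ _ _ _ _ _ (by simp [Al]) (by simp) (by simp) (by simp)]; rfl

/-- Polynomial completeness. -/
lemma psc_core (hcon : IsCon con) :
    ∃ Bs : List Fm, (∀ β ∈ Bs, TrueS β) ∧ ∃ C : ℕ, ∀ (U : List Fm) (m : ℕ), Prov U m .bot →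
      Prov (I.A 11 (nT (lc U)) o o o :: Bs) ((m + lc U + C) ^ C) (neg (conS con U)) := by
  obtain ⟨B₀, hB₀, F, hF, hFm, h⟩ := psc_pr I hcon
  set a1 := (all 1 con).len with ha1
  set a2 := (I.A 11 (x 0) o o o).len with ha2
  set G : ℕ → ℕ := fun u => F (u + a1 * (u + 1) + a2 * (u + 1)) with hG
  have hGP : PB G := hF.comp ((PB.id.add ((PB.const _).mul (PB.id.add (PB.const 1)))).add
    ((PB.const _).mul (PB.id.add (PB.const 1))))
  obtain ⟨C₁, q, hq⟩ : PB fun u => (5 * G u) * (5 * (G u + a1 * (u + 1) + 2)) :=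
    ((PB.const 5).mul hGP).mul ((PB.const 5).mul ((hGP.add ((PB.const _).mul
      (PB.id.add (PB.const 1)))).add (PB.const 2)))
  refine ⟨B₀, hB₀, C₁ + q + 2, fun U m hp => ?_⟩
  obtain ⟨u, hu⟩ : ∃ u, u = m + lc U := ⟨_, rfl⟩
  have hl1 : (conS con U).len ≤ a1 * (u + 1) := by
    rw [hcon.conS_eq U (as [lc U]) rfl]
    exact Fm.len_cl (as_le (by simp [hu]))
  have hl2 : (I.A 11 (nT (lc U)) o o o).len ≤ a2 * (u + 1) := by
    rw [fact11_eq]
    exact Fm.len_cl (as_le (by simp [hu]))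
  have h1 := h (conS con U :: I.A 11 (nT (lc U)) o o o :: B₀) U m (fun β hβ => by simp [hβ])
    (by simp) (by simp) hp
  have h2 : F (m + lc U + (conS con U).len + (I.A 11 (nT (lc U)) o o o).len) ≤ G u :=
    hFm (by omega)
  have h3 := (h1.mono h2 h2).ded (hcon.conS_sentence U)
  have h4 := h3.prov
  refine h4.mono ?_
  rw [← hu]
  have h5 := hq u
  have hq' : (5 * G u) * (5 * (G u + a1 * (u + 1) + 2)) ≤ C₁ * (u + 2) ^ q := h5
  calc 5 * G u * (5 * (G u + (conS con U).len + 2))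
      ≤ (5 * G u) * (5 * (G u + a1 * (u + 1) + 2)) := by gcongr
    _ ≤ C₁ * (u + 2) ^ q := hq'
    _ ≤ (u + (C₁ + q + 2)) * (u + (C₁ + q + 2)) ^ q :=
        Nat.mul_le_mul (by omega) (Nat.pow_le_pow_left (by omega) _)
    _ = (u + (C₁ + q + 2)) ^ (q + 1) := by rw [pow_succ]; ring
    _ ≤ (u + (C₁ + q + 2)) ^ (C₁ + q + 2) := Nat.pow_le_pow_right (by omega) (by omega)

include I in
lemma sem_psc (hcon : IsCon con) {Bs : List Fm} {C : ℕ}
    (h : ∀ (U : List Fm) (m : ℕ), Prov U m .bot →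
      Prov (I.A 11 (nT (lc U)) o o o :: Bs) ((m + lc U + C) ^ C) (neg (conS con U)))
    {t u L r n y d : ℕ} (h1 : PfR L t) (h2 : PLR L r) (h3 : LSR t) (h4 : LSR u)
    (h5 : MeR L (nd 9 (nd 1 (fc (con.sub 0 (nT u)))))) (h6 : MeR L (fc (I.A 11 (nT u) o o o)))
    (h7 : ∀ β ∈ Bs, MeR L (fc β)) (hy : y = (n + u + C) ^ C + r + 1 + d) (h8 : cP con t y) :
    cP con u n := by
  obtain ⟨l, T, rfl, rfl, hl⟩ := h1
  obtain ⟨l', e1, rfl⟩ := h2
  obtain rfl := lc_inj e1
  obtain ⟨T', e2, hT⟩ := h3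
  obtain rfl := lc_inj e2
  obtain ⟨U, rfl, hU⟩ := h4
  have m5 : conS con U ∈ l := by
    obtain ⟨l', φ, e3, e4, e5⟩ := h5
    obtain rfl := lc_inj e3
    have e6 : fc (conS con U) = fc φ := e4
    rwa [fc_inj e6]
  have m6 : I.A 11 (nT (lc U)) o o o ∈ l := by
    obtain ⟨l', φ, e3, e4, e5⟩ := h6
    obtain rfl := lc_inj e3
    rwa [fc_inj e4]
  have m7 : ∀ β ∈ Bs, β ∈ l := by
    intro β hβ
    obtain ⟨l', φ, e3, e4, e5⟩ := h7 β hβ
    obtain rfl := lc_inj e3
    rwa [fc_inj e4]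
  rw [cP_lc hcon hU]
  intro hp
  obtain ⟨P, hP, hlen⟩ := h U n hp
  refine (cP_lc hcon hT y).mp h8 ?_
  have q1 : IsProof T ((neg (conS con U) :: P) ++ l) :=
    cut_list (hP.mono fun φ hφ => List.mem_append_left _ hφ) hl fun Q hQ => by
      rcases List.mem_cons.mp hQ with rfl | hQ
      · exact m6
      · exact m7 Q hQ
  refine ⟨(neg (conS con U) :: P) ++ l, ⟨q1, Or.inr (Or.inr (Or.inl ⟨conS con U, ?_, ?_⟩))⟩, ?_⟩
  · exact List.mem_append_right _ m5
  · exact List.mem_append_left _ List.mem_cons_self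
  · rw [plen_cons, plen_append]
    have : Fm.len .bot = 1 := rfl
    omega

/-- Powers of terms. -/
def powT (t : Tm) : ℕ → Tm
  | 0 => nT 1
  | k + 1 => .mul (powT t k) t

lemma val_powT (t : Tm) (k : ℕ) (e : ℕ → ℕ) : (powT t k).val e = (t.val e) ^ k := by
  induction k with
  | zero => simp [powT]
  | succ k ih => simp only [powT, Tm.val, ih, pow_succ]

lemma sb_powT (t : Tm) (k : ℕ) (σ : ℕ → Tm) : (powT t k).sb σ = powT (t.sb σ) k := by
  induction k with
  | zero => simp [powT]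
  | succ k ih => simp only [powT, Tm.sb, ih]

end Helper31Con.Amp
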