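import Pool.Agent.Helper15_PSC.Main

/-!
# Adding an axiom which is needed only in the presence of its own consistency
-/

namespace Helper31Con.Amp

open Function Filter Fm

lemma add_lt_nd (a b : ℕ) : a + b < nd a b := by unfold nd; nlinarith

lemma len_le_tc (t : Tm) : t.len ≤ tc t := by
  induction t with
  | var k =>
    have := add_lt_nd 0 k
    simp only [Tm.len, tc]; omega
  | zero => exact three_le_tc .zero
  | succ t ih =>
    have := lt_nd_r 2 (tc t)
    simp only [Tm.len, tc]; omega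
  | add t s ih1 ih2 =>
    have h1 := add_lt_nd (tc t) (tc s)
    have h2 := lt_nd_r 3 (nd (tc t) (tc s))
    simp only [Tm.len, tc]; omega
  | mul t s ih1 ih2 =>
    have h1 := add_lt_nd (tc t) (tc s)
    have h2 := lt_nd_r 4 (nd (tc t) (tc s))
    simp only [Tm.len, tc]; omega

lemma len_le_fc (φ : Fm) : φ.len ≤ fc φ := by
  induction φ with
  | bot => exact nd_pos _ _
  | eq t s =>
    have h1 := add_lt_nd (tc t) (tc s)
    have h2 := lt_nd_r 6 (nd (tc t) (tc s))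
    have h3 := len_le_tc t
    have h4 := len_le_tc s
    simp only [Fm.len, fc]; omega
  | le t s =>
    have h1 := add_lt_nd (tc t) (tc s)
    have h2 := lt_nd_r 7 (nd (tc t) (tc s))
    have h3 := len_le_tc t
    have h4 := len_le_tc s
    simp only [Fm.len, fc]; omega
  | imp φ ψ ih1 ih2 =>
    have h1 := add_lt_nd (fc φ) (fc ψ)
    have h2 := lt_nd_r 8 (nd (fc φ) (fc ψ))
    simp only [Fm.len, fc]; omega
  | all k φ ih =>
    have h1 := add_lt_nd k (fc φ)
    have h2 := lt_nd_r 9 (nd k (fc φ))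
    simp only [Fm.len, fc]; omega

variable {con θ : Fm} (I : IfaceS (RA con θ))

include I in
lemma sem_split (hcon : IsCon con) {Bs : List Fm} {C : ℕ}
    (h : ∀ (U : List Fm) (m : ℕ), Prov U m .bot →
      Prov (I.A 11 (nT (lc U)) o o o :: Bs) ((m + lc U + C) ^ C) (neg (conS con U)))
    {t u L r n y d s : ℕ} (h1 : PfR L t) (h2 : PLR L r) (h3 : LSR t) (h4 : LSR u)
    (h5 : MeR L (nd 8 (nd (nd 8 (nd s (nd 5 0))) (nd 9 (nd 1 (fc (con.sub 0 (nT u))))))))
    (h6 : MeR L (fc (I.A 11 (nT u) o o o)))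
    (h7 : ∀ β ∈ Bs, MeR L (fc β)) (hu : u = nd s t)
    (hy : y = (n + u + C) ^ C + 25 * ((n + 1) * (n + u + 3)) + (r + r) + 1 + d)
    (h8 : cP con t y) : cP con u n := by
  obtain ⟨l, T, rfl, rfl, hl⟩ := h1
  obtain ⟨l', e1, rfl⟩ := h2
  obtain rfl := lc_inj e1
  obtain ⟨T', e2, hT⟩ := h3
  obtain rfl := lc_inj e2
  obtain ⟨U, rfl, hU⟩ := h4
  cases U with
  | nil =>
    have := nd_pos s (lc T)
    have h9 : lc ([] : List Fm) = 0 := rfl
    omega
  | cons σ T'' =>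
    have h9 : lc (σ :: T'') = nd (fc σ) (lc T'') := rfl
    obtain ⟨e3, e4⟩ := nd_inj.mp (h9.symm.trans hu)
    obtain rfl := lc_inj e4
    obtain rfl : fc σ = s := e3
    have m5 : imp (neg σ) (conS con (σ :: T'')) ∈ l := by
      obtain ⟨l', φ, e3, e4, e5⟩ := h5
      obtain rfl := lc_inj e3
      have e6 : fc (imp (neg σ) (conS con (σ :: T''))) = fc φ := e4
      rwa [fc_inj e6]
    have m6 : I.A 11 (nT (lc (σ :: T''))) o o o ∈ l := by
      obtain ⟨l', φ, e3, e4, e5⟩ := h6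
      obtain rfl := lc_inj e3
      rwa [fc_inj e4]
    have m7 : ∀ β ∈ Bs, β ∈ l := by
      intro β hβ
      obtain ⟨l', φ, e3, e4, e5⟩ := h7 β hβ
      obtain rfl := lc_inj e3
      rwa [fc_inj e4]
    rw [cP_lc hcon hU]
    intro hp
    have hσ : Fm.Sentence σ := hU σ List.mem_cons_self
    obtain ⟨P, hP, hlen⟩ := h (σ :: T'') n hp
    obtain ⟨P1, hP1, hlen1⟩ := (hp.pr.ded hσ).prov
    refine (cP_lc hcon hT y).mp h8 ?_
    have q1 : IsProof T'' ((neg (conS con (σ :: T'')) :: P) ++ l) :=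
      cut_list (hP.mono fun φ hφ => List.mem_append_left _ hφ) hl fun Q hQ => by
        rcases List.mem_cons.mp hQ with rfl | hQ
        · exact m6
        · exact m7 Q hQ
    have q2 := hP1.append q1
    have q3 : IsProof T'' (conS con (σ :: T'') :: ((imp σ bot :: P1) ++
        ((neg (conS con (σ :: T'')) :: P) ++ l))) :=
      ⟨q2, Or.inr (Or.inr (Or.inl ⟨neg σ, List.mem_append_left _ List.mem_cons_self,
        List.mem_append_right _ (List.mem_append_right _ m5)⟩))⟩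
    have l5 := len_le_plen m5
    have l6 := len_le_fc σ
    have l7 := lt_nd_l (fc σ) (lc T'')
    refine ⟨_, ⟨q3, Or.inr (Or.inr (Or.inl ⟨conS con (σ :: T''), List.mem_cons_self,
      List.mem_cons_of_mem _ (List.mem_append_right _ (List.mem_append_left _
        List.mem_cons_self))⟩))⟩, ?_⟩
    have l8 : 5 * n * (5 * (n + σ.len + 2)) ≤ 25 * ((n + 1) * (n + lc (σ :: T'') + 3)) := by
      rw [h9]
      calc 5 * n * (5 * (n + σ.len + 2)) = 25 * (n * (n + σ.len + 2)) := by ring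
        _ ≤ 25 * ((n + 1) * (n + nd (fc σ) (lc T'') + 3)) := by gcongr <;> omega
    rw [plen_cons, plen_cons, plen_append, plen_append]
    have : Fm.len .bot = 1 := rfl
    simp only [Fm.len] at l5
    omega

/-- The bound of the rule. -/
def bdS (C : ℕ) (u n r d : Tm) : Tm :=
  .add (.add (.add (.add (powT (.add (.add n u) (nT C)) C) (.mul (nT 25) (.mul (.add n (nT 1))
    (.add (.add n u) (nT 3))))) (.add r r)) (nT 1)) d

lemma val_bdS (C : ℕ) (u n r d : Tm) (e : ℕ → ℕ) : (bdS C u n r d).val e =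
    (n.val e + u.val e + C) ^ C + 25 * ((n.val e + 1) * (n.val e + u.val e + 3)) +
      (r.val e + r.val e) + 1 + d.val e := by
  simp only [bdS, Tm.val, val_powT, Tm.val_num]

lemma sb_bdS (C : ℕ) (u n r d : Tm) (σ : ℕ → Tm) : (bdS C u n r d).sb σ =
    bdS C (u.sb σ) (n.sb σ) (r.sb σ) (d.sb σ) := by
  simp only [bdS, Tm.sb, sb_powT, Tm.sb_num]

/-- The code of `¬ σ → Con_U`. -/
def cdS (s w : Tm) : Tm :=
  ndT (nT 8) (ndT (ndT (nT 8) (ndT s (ndT (nT 5) o))) (ndT (nT 9) (ndT (nT 1) w)))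

lemma val_cdS (s w : Tm) (e : ℕ → ℕ) : (cdS s w).val e =
    nd 8 (nd (nd 8 (nd (s.val e) (nd 5 0))) (nd 9 (nd 1 (w.val e)))) := by
  simp only [cdS, val_ndT, Tm.val_num, Tm.val]

lemma sb_cdS (s w : Tm) (σ : ℕ → Tm) : (cdS s w).sb σ = cdS (s.sb σ) (w.sb σ) := by
  simp only [cdS, sb_ndT, Tm.sb_num, Tm.sb]

/-- The rule. -/
lemma ev_split (hcon : IsCon con) {Bs : List Fm} {C : ℕ}
    (h : ∀ (U : List Fm) (m : ℕ), Prov U m .bot →
      Prov (I.A 11 (nT (lc U)) o o o :: Bs) ((m + lc U + C) ^ C) (neg (conS con U))) :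
    Ev fun X => ∀ (t u L r n y w6 w7 w8 w9 d s : Tm) (p q : ℕ),
      X.Ok t → X.Ok u → X.Ok L → X.Ok r → X.Ok n → X.Ok y → X.Ok w6 → X.Ok w7 → X.Ok w8 →
      X.Ok w9 → X.Ok d → X.Ok s → X.E 1 (I.A 13 L t o o) → X.E 1 (I.A 14 L r o o) →
      X.E 1 (I.A 11 t o o o) → X.E 1 (I.A 11 u o o o) → X.E p (I.A 21 u w6 o o) →
      X.E 1 (Fm.eq w7 (cdS s w6)) → X.E 1 (I.A 12 L w7 o o) →
      X.E q (I.A 16 u w8 o o) → X.E 1 (I.A 5 (nT (fc (I.A 11 (x 0) o o o))) o w8 w9) →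
      X.E 1 (I.A 12 L w9 o o) → X.E 1 (Fm.eq u (ndT s t)) →
      X.E 1 (Fm.eq y (bdS C u n r d)) →
      X.E 1 (I.A 23 t y o o) → (∀ β ∈ Bs, X.E 1 (I.A 12 L (nT (fc β)) o o)) →
      X.E (p + q + 12 + Bs.length) (I.A 23 u n o o) := by
  have r := ev_rule I (.rl 13 (x 2) (x 0) o o :: .rl 14 (x 2) (x 3) o o ::
    .rl 11 (x 0) o o o :: .rl 11 (x 1) o o o :: .rl 21 (x 1) (x 6) o o ::
    .eq (x 7) (cdS (x 11) (x 6)) :: .rl 12 (x 2) (x 7) o o ::
    .rl 16 (x 1) (x 8) o o :: .rl 5 (nT (fc (I.A 11 (x 0) o o o))) o (x 8) (x 9) ::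
    .rl 12 (x 2) (x 9) o o :: .eq (x 1) (ndT (x 11) (x 0)) ::
    .eq (x 5) (bdS C (x 1) (x 4) (x 3) (x 10)) :: .rl 23 (x 0) (x 5) o o ::
    Bs.map fun β => At.rl 12 (x 2) (nT (fc β)) o o) (.rl 23 (x 1) (x 4) o o)
    (by
      intro α hα
      simp only [List.mem_cons, List.mem_map] at hα
      rcases hα with rfl | rfl | rfl | rfl | rfl | rfl | rfl | rfl | rfl | rfl | rfl | rfl | rfl |
        rfl | ⟨β, _, rfl⟩ <;> simp [At.Wf, Al])
    (fun e => by
      rw [trL_iff]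
      intro g
      have h1 : PfR (e 2) (e 0) := g (.rl 13 (x 2) (x 0) o o) (by simp)
      have h2 : PLR (e 2) (e 3) := g (.rl 14 (x 2) (x 3) o o) (by simp)
      have h3 : LSR (e 0) := g (.rl 11 (x 0) o o o) (by simp)
      have h4 : LSR (e 1) := g (.rl 11 (x 1) o o o) (by simp)
      have h5 : e 6 = fc (con.sub 0 (nT (e 1))) := g (.rl 21 (x 1) (x 6) o o) (by simp)
      have h6 : (x 7).val e = (cdS (x 11) (x 6)).val e :=
        g (.eq (x 7) (cdS (x 11) (x 6))) (by simp)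
      have h7 : MeR (e 2) (e 7) := g (.rl 12 (x 2) (x 7) o o) (by simp)
      have h8 : e 8 = tc (nT (e 1)) := g (.rl 16 (x 1) (x 8) o o) (by simp)
      have h9 : SbF ((nT (fc (I.A 11 (x 0) o o o))).val e) 0 (e 8) (e 9) :=
        g (.rl 5 (nT (fc (I.A 11 (x 0) o o o))) o (x 8) (x 9)) (by simp)
      have h10 : MeR (e 2) (e 9) := g (.rl 12 (x 2) (x 9) o o) (by simp)
      have h10' : (x 1).val e = (ndT (x 11) (x 0)).val e :=
        g (.eq (x 1) (ndT (x 11) (x 0))) (by simp)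
      have h11 : (x 5).val e = (bdS C (x 1) (x 4) (x 3) (x 10)).val e :=
        g (.eq (x 5) (bdS C (x 1) (x 4) (x 3) (x 10))) (by simp)
      have h12 : cP con (e 0) (e 5) := g (.rl 23 (x 0) (x 5) o o) (by simp)
      have h13 : ∀ β ∈ Bs, MeR (e 2) (fc β) := fun β hβ => by
        have : MeR (e 2) ((nT (fc β)).val e) := g (.rl 12 (x 2) (nT (fc β)) o o) (by
          simp only [List.mem_cons, List.mem_map]
          iterate 13 right
          exact ⟨β, hβ, rfl⟩)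
        rwa [Tm.val_num] at this
      rw [val_cdS] at h6
      have h6' : e 7 = nd 8 (nd (nd 8 (nd (e 11) (nd 5 0)))
          (nd 9 (nd 1 (fc (con.sub 0 (nT (e 1))))))) := by
        rw [← h5]; exact h6
      rw [Tm.val_num] at h9
      obtain ⟨φ, r', e1, e2, e3⟩ := h9
      obtain rfl := fc_inj e1
      obtain rfl := tc_inj (h8.symm.trans e2)
      have h9' : e 9 = fc (I.A 11 (nT (e 1)) o o o) := by
        rw [e3, Fm.sub_eq_sb, I.sbs _ _ _ _ _ _ (by simp [Al]) (by simp) (by simp) (by simp)]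
        simp only [Tm.sb, update_self]
      rw [val_ndT] at h10'
      rw [val_bdS] at h11
      exact sem_split I hcon h h1 h2 h3 h4 (h6' ▸ h7) (h9' ▸ h10) h13 h10' h11 h12)
  refine r.mono ?_
  intro X r t u L rr n y w6 w7 w8 w9 d s p q ht hu hL hr hn hy h6 h7 h8 h9 hd hs
    q1 q2 q3 q4 q5 q6 q7 q8 q9 q10 q10' q11 q12 q13
  have key := r (tl [t, u, L, rr, n, y, w6, w7, w8, w9, d, s])
    (1 :: 1 :: 1 :: 1 :: p :: 1 :: 1 :: q :: 1 :: 1 :: 1 :: 1 :: 1 :: List.replicate Bs.length 1)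
    (Cx.ok12 ht hu hL hr hn hy h6 h7 h8 h9 hd hs)
    (.cons q1 (.cons q2 (.cons q3 (.cons q4 (.cons q5 (.cons (by
      show X.E 1 (Fm.eq w7 ((cdS (x 11) (x 6)).sb _))
      rw [sb_cdS]
      exact q6) (.cons q7 (.cons q8 (.cons (by
      show X.E 1 (I.A 5 ((nT (fc (I.A 11 (x 0) o o o))).sb _) o w8 w9)
      rw [Tm.sb_num]
      exact q9) (.cons q10 (.cons (by
      show X.E 1 (Fm.eq u ((ndT (x 11) (x 0)).sb _))
      rw [sb_ndT]
      exact q10') (.cons (by
      show X.E 1 (Fm.eq y ((bdS C (x 1) (x 4) (x 3) (x 10)).sb _))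
      rw [sb_bdS]
      exact q11) (.cons q12
      (forall2_rep (P := fun nn α => X.E nn (At.fm I (At.sb α
          (tl [t, u, L, rr, n, y, w6, w7, w8, w9, d, s]))))
        (g := fun β => At.rl 12 (x 2) (nT (fc β)) o o) (fun β hβ => by
        show X.E 1 (I.A 12 L ((nT (fc β)).sb _) o o)
        rw [Tm.sb_num]
        exact q13 β hβ)))))))))))))))
  refine key.mono (le_of_eq ?_)
  simp only [List.sum_cons, List.sum_replicate, smul_eq_mul]
  ring

/-- Let `U = A₀ + σ`, where `A₀` (proving a fixed finite true set) proves `¬ σ → Con_U`. Then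
short proofs of `Con_{A₀}(n)` give short proofs of `Con_U(n)`. -/
theorem split {con : Fm} (hcon : IsCon con) : ∃ B₁ : List Fm, (∀ φ ∈ B₁, TrueS φ) ∧
    ∀ (T : List Fm) (σ : Fm), (∀ φ ∈ T, Fm.Sentence φ) → Fm.Sentence σ →
      (∀ φ ∈ B₁, ∃ k, Prov T k φ) → (∃ k, Prov (neg σ :: T) k (conS con (σ :: T))) →
      ∃ c d, ∀ A : List Fm, (∀ φ ∈ B₁, φ ∈ A) → ∀ n k, Prov A k (conN con T ((n + c) ^ c)) →
        Prov A ((n + k + d) ^ d) (conN con (σ :: T) n) := by
  obtain ⟨I⟩ := exists_ifaceA (θ := Fm.bot) hcon (fun k hk => absurd hk (by simp [Fm.Free]))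
  obtain ⟨Bs, hBs, C, hC⟩ := psc_core I hcon
  obtain ⟨f, hf⟩ := ev_dec I
  obtain ⟨g, hg⟩ := ev_c0 I
  obtain ⟨h, hhP, hh⟩ := eq_fact (x 0) (bdS C (x 2) (x 1) (x 3) (x 4))
  obtain ⟨h', hhP', hh'⟩ := eq_fact (x 0) (cdS (x 1) (x 2))
  obtain ⟨c1, h1⟩ := horn1 (α := con) (β := I.A 23 (x 0) (x 1) o o) (fun e h1 => by
    rw [I.sat _ _ _ _ _ _ (by simp [Al]) (by simp [Al]) (by simp) (by simp)]
    exact (hcon.cP_iff e).mp h1)
  obtain ⟨c2, h2⟩ := horn1 (α := I.A 23 (x 0) (x 1) o o) (β := con) (fun e h1 => by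
    rw [I.sat _ _ _ _ _ _ (by simp [Al]) (by simp [Al]) (by simp) (by simp)] at h1
    exact (hcon.cP_iff e).mpr h1)
  obtain ⟨B₀, hB₀, c₀, hX⟩ := ((hf.and (ev_nmc I)).and ((hg.and (ev_split I hcon hC)).and
    ev_n1)).and ((((ev_pr PB.id).and (ev_pr hhP)).and (ev_pr hhP')).and
      (((ev_rich hh).and (ev_rich hh')).and ((ev_rich h1).and (ev_rich h2))))
  refine ⟨Bs ++ B₀, ?_, ?_⟩
  · intro φ hφ
    rcases List.mem_append.mp hφ with h | h
    · exact hBs φ h
    · exact hB₀ φ h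
  intro T σ hT hσ hTB hTU
  obtain ⟨U, hUd⟩ : ∃ U, U = σ :: T := ⟨_, rfl⟩
  rw [← hUd] at hTU ⊢
  have hU : ∀ φ ∈ U, Fm.Sentence φ := by
    intro φ hφ
    rw [hUd] at hφ
    rcases List.mem_cons.mp hφ with rfl | hφ
    · exact hσ
    · exact hT φ hφ
  -- `T` proves that `U` is a list of sentences
  have h11 : ∃ k, Prov T k (I.A 11 (nT (lc U)) o o o) := by
    obtain ⟨X, e1, e2, e3, e4, e5⟩ := exists_cx B₀ c₀ (f (lc U) + 1) (by omega)
    obtain ⟨⟨⟨hf, _⟩, _⟩, _⟩ := hX X (by rw [e1]; exact fun β hβ => hβ) (by rw [e3])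
      (by rw [e4, e5])
    have q := hf 11 (by omega) (lc U) 0 0 0 (lc U) le_rfl (by omega) (by omega) (by omega)
      (by rw [e4]; omega) ⟨U, rfl, hU⟩
    have q' : Pr X.B (X.C * 1) X.C (impL X.G (I.A 11 (nT (lc U)) o o o)) := q
    rw [e1, e2] at q'
    have q'' : Pr B₀ (X.C * 1) X.C (I.A 11 (nT (lc U)) o o o) := q'
    exact prov_cut (fun β hβ => hTB β (List.mem_append_right _ hβ)) q''.prov
  have hTU' : ∃ k, Prov T k (imp (neg σ) (conS con U)) := by
    obtain ⟨k, hk⟩ := hTU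
    have hns : Fm.Sentence (neg σ) := fun j hj => by
      rcases hj with hj | hj
      · exact hσ j hj
      · exact hj
    exact ⟨_, (hk.pr.ded hns).prov⟩
  obtain ⟨L, hL, hLm⟩ := exists_list (T := T) (Ps := imp (neg σ) (conS con U) ::
    I.A 11 (nT (lc U)) o o o :: Bs) (by
      intro φ hφ
      rcases List.mem_cons.mp hφ with rfl | hφ
      · exact hTU'
      rcases List.mem_cons.mp hφ with rfl | hφ
      · exact h11
      · exact hTB φ (List.mem_append_left _ hφ))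
  set t := lc T with ht
  set u := lc U with hu
  set s := fc σ with hs
  have hust : u = nd s t := by rw [hu, hUd]; rfl
  set r := plen L with hr
  set w6 := fc (con.sub 0 (nT u)) with hw6
  set w7 := nd 8 (nd (nd 8 (nd s (nd 5 0))) (nd 9 (nd 1 w6))) with hw7
  set w8 := tc (nT u) with hw8
  set w9 := fc (I.A 11 (nT u) o o o) with hw9
  set c11 := fc (I.A 11 (x 0) o o o) with hc11
  set N₁ := t + u + s + lc L + r + w6 + w7 + w8 + w9 + c11 + fc con + 1 with hN₁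
  set ca := u + C + 2 * r + 128 with hca
  set Sf : ℕ → ℕ := fun v => ((v + ca) ^ ca + v + N₁ + 1 + f N₁ + g N₁) +
    (c1 + v + c1 * ((v + ca) ^ ca + N₁ + v + 1) + con.len * ((v + ca) ^ ca + N₁ + v + 1)) with hSf
  set Cf : ℕ → ℕ := fun v => (Sf v + c₀) ^ c₀ with hCf
  set cost := 2 * (u + 1) + 2 + 2 * (u + 1) + 12 + Bs.length with hcost
  set H : ℕ → ℕ := fun v => (c2 + Cf v * cost) * (Cf v + c2 * (v + N₁ + 1)) with hH
  have hYP : PB fun v => (v + ca) ^ ca := PB.pow (PB.id.add (PB.const _)) ca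
  have hYP' : PB fun v => (v + ca) ^ ca + N₁ + v + 1 :=
    ((hYP.add (PB.const _)).add PB.id).add (PB.const 1)
  have hSP : PB Sf := (((((hYP.add PB.id).add (PB.const _)).add (PB.const 1)).add
    (PB.const _)).add (PB.const _)).add ((((PB.const _).add PB.id).add
      ((PB.const _).mul hYP')).add ((PB.const _).mul hYP'))
  have hCP : PB Cf := PB.pow (hSP.add (PB.const _)) c₀
  have hHP : PB H := ((PB.const _).add (hCP.mul (PB.const _))).mul (hCP.add ((PB.const _).mul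
    ((PB.id.add (PB.const _)).add (PB.const 1))))
  obtain ⟨C₁, q, hCq⟩ := hHP
  refine ⟨ca, C₁ + q + 2, fun A hA n k hp => ?_⟩
  obtain ⟨v, hv⟩ : ∃ v, v = n + k := ⟨_, rfl⟩
  obtain ⟨y, hy⟩ : ∃ y, y = (n + ca) ^ ca := ⟨_, rfl⟩
  rw [← hy] at hp
  have hyv : y ≤ (v + ca) ^ ca := by rw [hy]; exact Nat.pow_le_pow_left (by omega) _
  -- the slack
  have hyb : (n + u + C) ^ C + 25 * ((n + 1) * (n + u + 3)) + (r + r) + 1 ≤ y := by
    rw [hy]
    obtain ⟨z, hz⟩ : ∃ z, z = n + ca := ⟨_, rfl⟩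
    have a0 : 128 ≤ z := by omega
    have a1 : (n + u + C) ^ C ≤ z ^ C := Nat.pow_le_pow_left (by omega) _
    have a2 : z ^ (C + 3) ≤ z ^ ca := Nat.pow_le_pow_right (by omega) (by omega)
    have a3 : 1 ≤ z ^ C := Nat.one_le_pow _ _ (by omega)
    have a4 : (n + 1) * (n + u + 3) ≤ z * z := Nat.mul_le_mul (by omega) (by omega)
    have a5 : z ^ (C + 3) = z ^ C * (z * z * z) := by ring
    have a6 : 128 * (z * z) ≤ z * z * z := by nlinarith
    have a7 : z ≤ z * z := by nlinarith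
    have a8 : z ^ C + 127 * (z * z) ≤ z ^ C * (128 * (z * z)) := by
      have : 1 ≤ z * z := by nlinarith
      nlinarith
    have a9 : z ^ C * (128 * (z * z)) ≤ z ^ C * (z * z * z) := Nat.mul_le_mul_left _ a6
    rw [← hz]
    rw [a5] at a2
    omega
  obtain ⟨d, hd⟩ := Nat.exists_eq_add_of_le hyb
  obtain ⟨X, e1, e2, e3, e4, e5⟩ := exists_cx A c₀ (Sf v) (by
    show 1 ≤ ((v + ca) ^ ca + v + N₁ + 1 + f N₁ + g N₁) + _; omega)
  obtain ⟨⟨⟨hf, hnmc⟩, ⟨⟨hg, hpsc⟩, hn1⟩⟩, ⟨⟨⟨hpr, hprh⟩, hprh'⟩, ⟨⟨hh, hh'⟩, ⟨h1, h2⟩⟩⟩⟩ := hX X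
    (by rw [e1]; exact fun β hβ => hA β (List.mem_append_right _ hβ)) (by rw [e3]) (by rw [e4, e5])
  have hSu : X.S = ((v + ca) ^ ca + v + N₁ + 1 + f N₁ + g N₁) +
    (c1 + v + c1 * ((v + ca) ^ ca + N₁ + v + 1) + con.len * ((v + ca) ^ ca + N₁ + v + 1)) := e4
  have okn : ∀ a, a ≤ N₁ + (v + ca) ^ ca + v → X.Ok (nT a) := fun a ha =>
    X.ok_num (by rw [hSu]; omega)
  have hfS : f N₁ ≤ X.S := by omega
  have hgS : g N₁ ≤ X.S := by omega
  have m7 : imp (neg σ) (conS con U) ∈ L := hLm _ (by simp)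
  have m9 : I.A 11 (nT u) o o o ∈ L := hLm _ (by simp)
  have p1 := hf 13 (by omega) (lc L) t 0 0 N₁ (by omega) (by omega) (by omega) (by omega)
    hfS ⟨L, T, rfl, rfl, hL⟩
  have p2 := hf 14 (by omega) (lc L) r 0 0 N₁ (by omega) (by omega) (by omega) (by omega)
    hfS ⟨L, rfl, rfl⟩
  have p3 := hf 11 (by omega) t 0 0 0 N₁ (by omega) (by omega) (by omega) (by omega)
    hfS ⟨T, rfl, hT⟩
  have p4 := hf 11 (by omega) u 0 0 0 N₁ (by omega) (by omega) (by omega) (by omega)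
    hfS ⟨U, rfl, hU⟩
  have p5 := hg u N₁ (by omega) (by omega) (by omega) (by omega) (by omega) hgS
  have p6 : X.E 1 (Fm.eq (nT w7) (cdS (nT s) (nT w6))) := by
    have := hprh' _ (hh' (as [w7, s, w6]) X.S (as_le (by
      simp only [List.forall_mem_cons, List.not_mem_nil, IsEmpty.forall_iff, implies_true,
        and_true]
      omega)) (by
        rw [val_cdS]
        rfl))
    have h3 : Fm.cl (as [w7, s, w6]) (Fm.eq (x 0) (cdS (x 1) (x 2))) =
        Fm.eq (nT w7) (cdS (nT s) (nT w6)) := by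
      simp only [Fm.cl, Fm.sb, Tm.sb, sb_cdS]; rfl
    rwa [h3] at this
  have p7 := hf 12 (by omega) (lc L) w7 0 0 N₁ (by omega) (by omega) (by omega) (by omega)
    hfS ⟨L, imp (neg σ) (conS con U), rfl, rfl, m7⟩
  have p8 := hnmc u (by omega) (by omega)
  have p9 := hf 5 (by omega) c11 0 w8 w9 N₁ (by omega) (by omega) (by omega) (by omega)
    hfS ⟨I.A 11 (x 0) o o o, nT u, rfl, rfl, by
      rw [hw9, Fm.sub_eq_sb, I.sbs _ _ _ _ _ _ (by simp [Al]) (by simp) (by simp) (by simp)]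
      simp only [Tm.sb, update_self]⟩
  have p10 := hf 12 (by omega) (lc L) w9 0 0 N₁ (by omega) (by omega) (by omega) (by omega)
    hfS ⟨L, _, rfl, rfl, m9⟩
  have p10' : X.E 1 (Fm.eq (nT u) (ndT (nT s) (nT t))) := by
    have := hn1 s t (by omega)
    rwa [← hust] at this
  have p11 : X.E 1 (Fm.eq (nT y) (bdS C (nT u) (nT n) (nT r) (nT d))) := by
    have := hprh _ (hh (as [y, n, u, r, d]) X.S (as_le (by
      simp only [List.forall_mem_cons, List.not_mem_nil, IsEmpty.forall_iff, implies_true,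
        and_true]
      omega)) (by
        rw [val_bdS]
        show y = (n + u + C) ^ C + 25 * ((n + 1) * (n + u + 3)) + (r + r) + 1 + d
        omega))
    have h3 : Fm.cl (as [y, n, u, r, d]) (Fm.eq (x 0) (bdS C (x 2) (x 1) (x 3) (x 4))) =
        Fm.eq (nT y) (bdS C (nT u) (nT n) (nT r) (nT d)) := by
      simp only [Fm.cl, Fm.sb, Tm.sb, sb_bdS]; rfl
    rwa [h3] at this
  have p12 : X.E 1 (I.A 23 (nT t) (nT y) o o) := hpr _ (by
    have a1 : (conN con T y).len ≤ con.len * ((v + ca) ^ ca + N₁ + v + 1) := by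
      rw [hcon.conN_eq]
      exact Fm.len_cl (as_le (by
        simp only [List.forall_mem_cons, List.not_mem_nil, IsEmpty.forall_iff, implies_true,
          and_true]
        omega))
    rw [hcon.conN_eq] at hp
    have a2 := h1 (as [lc T, y]) ((v + ca) ^ ca + N₁ + v) X.S k (as_le (by
      simp only [List.forall_mem_cons, List.not_mem_nil, IsEmpty.forall_iff, implies_true,
        and_true]
      omega)) (by omega) (by
        rw [e1]
        exact hp.pr.mono le_rfl (by omega))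
    rw [I.cl _ _ _ _ _ _ (by simp [Al]) (by simp [Al]) (by simp) (by simp)] at a2
    exact a2.mono (by show c1 + k ≤ X.S; omega) (by show X.S ≤ X.S; omega))
  have p13 : ∀ β ∈ Bs, X.E 1 (I.A 12 (nT (lc L)) (nT (fc β)) o o) := by
    intro β hβ
    have a1 : β ∈ L := hLm _ (by simp [hβ])
    have a2 := mem_le_lc a1
    exact hf 12 (by omega) (lc L) (fc β) 0 0 N₁ (by omega) (by omega) (by omega) (by omega)
      hfS ⟨L, β, rfl, rfl, a1⟩
  have p14 := hpsc (nT t) (nT u) (nT (lc L)) (nT r) (nT n) (nT y) (nT w6) (nT w7) (nT w8) (nT w9)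
    (nT d) (nT s) _ _ (okn _ (by omega)) (okn _ (by omega)) (okn _ (by omega)) (okn _ (by omega))
    (okn _ (by omega)) (okn _ (by omega)) (okn _ (by omega)) (okn _ (by omega))
    (okn _ (by omega)) (okn _ (by omega)) (okn _ (by omega)) (okn _ (by omega))
    p1 p2 p3 p4 p5 p6 p7 p8 p9 p10 p10' p11 p12 p13
  have p15 : Pr A (X.C * cost) X.C (I.A 23 (nT u) (nT n) o o) := by
    have : Pr X.B _ X.C (impL X.G (I.A 23 (nT u) (nT n) o o)) := p14
    rw [e1, e2] at this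
    exact this.mono (Nat.mul_le_mul_left _ (by omega)) le_rfl
  rw [e1] at h2
  have hXC : X.C = Cf v := e5
  have p16 := h2 (as [u, n]) (v + N₁) (Cf v + c2 * (v + N₁ + 1)) _ (as_le (by
    simp only [List.forall_mem_cons, List.not_mem_nil, IsEmpty.forall_iff, implies_true,
      and_true]
    omega)) (by omega) (by
    rw [I.cl _ _ _ _ _ _ (by simp [Al]) (by simp [Al]) (by simp) (by simp)]
    exact p15.mono le_rfl (by omega))
  have p17 := p16.prov
  rw [hXC] at p17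
  have p18 : con.cl (as [u, n]) = conN con U n := (hcon.conN_eq U n).symm
  rw [p18] at p17
  refine p17.mono ?_
  have q13 : (c2 + Cf v * cost) * (Cf v + c2 * (v + N₁ + 1)) ≤ C₁ * (v + 2) ^ q := hCq v
  refine q13.trans ?_
  rw [← hv]
  calc C₁ * (v + 2) ^ q ≤ (v + (C₁ + q + 2)) * (v + (C₁ + q + 2)) ^ q :=
        Nat.mul_le_mul (by omega) (Nat.pow_le_pow_left (by omega) _)
    _ = (v + (C₁ + q + 2)) ^ (q + 1) := by rw [pow_succ]; ring
    _ ≤ (v + (C₁ + q + 2)) ^ (C₁ + q + 2) := Nat.pow_le_pow_right (by omega) (by omega)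

end Helper31Con.Amp
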